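import Pool.Agent.H.MP_bf3dd3_lc.Ex

set_option autoImplicit false

namespace Pool.Agent.Results.MP_bf3dd3_lc.Separates
open MeasureTheory Pool.Agent.H.MP_bf3dd3_lc

theorem result (Δ : ℕ) (hΔ : 5 ≤ Δ) : ∃ (k r : ℕ) (P : Balls k),
    (∀ (X : Type) [MeasurableSpace X] [StandardBorelSpace X] (μ : Measure X) (G : SimpleGraph X),
      IsMeasuredGraph Δ μ G → MassTransport μ G → Solvable r P μ G) ∧
    ∃ (X : Type) (_ : MeasurableSpace X) (_ : StandardBorelSpace X) (μ : Measure X)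
      (G : SimpleGraph X), IsMeasuredGraph Δ μ G ∧ ¬ Solvable r P μ G :=
  ⟨12, 10, PP, fun _ _ _ μ G h m => pmp_side Δ μ G h m,
    XX, inferInstance, inferInstance, mX, GG, ex_measured Δ hΔ, ex_unsolv⟩

end Pool.Agent.Results.MP_bf3dd3_lc.Separates
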